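import Pool.Agent.H.MP_db6017_lc.B

set_option autoImplicit false

namespace Pool.Agent.Results.MP_db6017_lc.Subt

/-- initial segment -/
def pr (p : ℕ → Bool) (k : ℕ) : List Bool := (List.range k).map p

/-- The functional with set of rules `W` sends `p` to the point `q`. -/
def Maps (W : List Bool × ℕ × Bool → Prop) (p q : ℕ → Bool) : Prop := ∀ n v, (∃ k, W (pr p k, n, v)) ↔ q n = v

/-- join -/
def jn (p q : ℕ → Bool) (n : ℕ) : Bool := if n % 2 = 0 then p (n / 2) else q (n / 2)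

/-- Weihrauch reducibility of total problems on Cantor space. -/
def Le (P Q : (ℕ → Bool) → Set (ℕ → Bool)) : Prop :=
  ∃ Φ Ψ, REPred Φ ∧ REPred Ψ ∧ ∀ c, ∃ x, Maps Φ c x ∧ ∀ h ∈ Q x, ∃ y ∈ P c, Maps Ψ (jn c h) y

def HT (c : ℕ → Bool) : Set (ℕ → Bool) :=
  {h | {n | h n = true}.Infinite ∧ ∃ i, ∀ x y, x < y → h x = true → h y = true → c (x + y) = i}

def RS (c : ℕ → Bool) : Set (ℕ → Bool) :=
  {h | {n | h n = true}.Infinite ∧ ∃ i, ∀ x y, x < y → h x = true → h y = true → c (y - x) = i}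

theorem result : ¬Le RS HT := fun ⟨Φ, Ψ, _, _, h⟩ =>
  H.MP_db6017_lc.red (fun x y => y - x) (fun d n => d (padicValNat 2 n) n) (fun _ _ _ a n b => a _ _ b)
    (fun i d ⟨n, a⟩ h b c => by
      choose! N a using a
      obtain ⟨r, f⟩ : ∃ r, {x | h x = true ∧ x % 2 ^ n = r}.Infinite := by
        by_contra! f
        exact b (((Set.finite_Iio (2 ^ n)).biUnion fun r _ => f r).subset fun x s =>
          Set.mem_biUnion (Nat.mod_lt x (by positivity)) ⟨s, rfl⟩)
      obtain ⟨x, g⟩ := f.nonempty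
      obtain ⟨z, l, m⟩ := f.exists_gt x
      obtain ⟨y, o, q⟩ := f.exists_gt (z + (Finset.range (z + 1)).sup N)
      have k : ∀ x ≤ z, h x = true ∧ x % 2 ^ n = r → 2 ^ (z + 1) ∣ y - x := fun x s t => by
        by_contra u
        rw [padicValNat_dvd_iff_le (by omega), not_le] at u
        have := Finset.le_sup (f := N) (Finset.mem_range.2 u)
        have v := a _ ((padicValNat_dvd_iff_le (by omega)).1 ((Nat.modEq_iff_dvd' (by omega)).1 (t.2.trans o.2.symm))) (y - x) (by omega)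
        simp [c x y (by omega) t.1 o.1] at v
      have := Nat.le_of_dvd (by omega) (Nat.dvd_sub (k x m.le g) (k z le_rfl l))
      have := (z + 1).lt_two_pow_self
      omega) ⟨Φ, Ψ, h⟩

end Pool.Agent.Results.MP_db6017_lc.Subt
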